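import Mathlib

set_option autoImplicit false

/-!
# The prime-power threshold `g(k)` in two-generator Frobenius gaps grows faster than every `M ^ k`

Let `P ≥ M ^ 2`. For large `k` take a prime `m` with `m ^ 2` of the order of `P ^ (k + 1)`. For `m < a < 2 m` the
Frobenius number of `(m, a)` is smaller than `(P + 1) ^ k`, so only the powers `p ^ k` with `p ≤ P` matter. If
`p ^ k = m x + a y` then `1 ≤ y ≤ P ^ k / m`, and for given `p` and `y` at most one `a` with `m < a < 2 m` is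
possible, because `a y ≡ p ^ k (mod m)`. This excludes fewer than `m - 1` values of `a`.
-/

namespace Pool.Agent.Results.MP_0e842d_nt.ThresholdGrowth

/-- The pair `(a₁, a₂)` is `k`-good: some prime `p` satisfies `p ^ k ≤ a₁ a₂ - a₁ - a₂` (an inequality of
integers) and `p ^ k = a₁ x + a₂ y` for some integers `x, y ≥ 0`. -/
def KGood (k a₁ a₂ : ℕ) : Prop :=
  ∃ p : ℕ, p.Prime ∧ (p : ℤ) ^ k ≤ (a₁ : ℤ) * a₂ - a₁ - a₂ ∧ ∃ x y : ℕ, p ^ k = a₁ * x + a₂ * y

/-- The set of positive integers `N` such that every coprime pair `(a₁, a₂)` with `N < a₁ < a₂` is `k`-good.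
The threshold `g(k)` of the problem is the least element of this set. -/
def Thresholds (k : ℕ) : Set ℕ :=
  {N | 0 < N ∧ ∀ a₁ a₂ : ℕ, N < a₁ → a₁ < a₂ → Nat.Coprime a₁ a₂ → KGood k a₁ a₂}

/-- The counting step. -/
theorem exists_second (P k m : ℕ) (hm : m.Prime) (hP : 1 ≤ P) (hbig : P ^ (k + 1) < m * (m - 1)) :
    ∃ a : ℕ, m < a ∧ a < 2 * m ∧
      ∀ b y x : ℕ, b ≤ P → 1 ≤ y → b ^ k ≠ m * x + a * y := by
  classical
  by_contra hcon
  push Not at hcon
  have hm2 : 2 ≤ m := hm.two_le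
  have hPk : P ^ k ≤ P ^ (k + 1) := Nat.pow_le_pow_right hP (Nat.le_succ k)
  -- choice of the data for every `a`
  have hch : ∀ a ∈ Finset.Ioo m (2 * m), ∃ c : ℕ × ℕ, c ∈ (Finset.Icc 1 P) ×ˢ (Finset.Icc 1 (P ^ k / m)) ∧
      ∃ x, c.1 ^ k = m * x + a * c.2 := by
    intro a ha
    rw [Finset.mem_Ioo] at ha
    obtain ⟨b, y, x, hb, hy, he⟩ := hcon a ha.1 ha.2
    refine ⟨(b, y), ?_, x, he⟩
    rw [Finset.mem_product, Finset.mem_Icc, Finset.mem_Icc]
    have hbk : b ^ k ≤ P ^ k := Nat.pow_le_pow_left hb k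
    have hay : m * y ≤ P ^ k := by
      calc m * y ≤ a * y := Nat.mul_le_mul_right y ha.1.le
        _ ≤ m * x + a * y := Nat.le_add_left _ _
        _ = b ^ k := he.symm
        _ ≤ P ^ k := hbk
    refine ⟨⟨?_, hb⟩, hy, ?_⟩
    · by_contra hb0
      have hb0' : b = 0 := by simpa using hb0
      rcases Nat.eq_zero_or_pos k with hk | hk
      · subst hk
        have : a * y ≤ 1 := by
          calc a * y ≤ m * x + a * y := Nat.le_add_left _ _
            _ = b ^ 0 := he.symm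
            _ = 1 := pow_zero b
        have h2 : 2 ≤ a * y := by
          calc 2 ≤ a := by omega
            _ = a * 1 := (mul_one a).symm
            _ ≤ a * y := Nat.mul_le_mul_left a hy
        omega
      · simp only [hb0'] at he
        rw [zero_pow hk.ne'] at he
        have h2 : 2 ≤ a * y := by
          calc 2 ≤ a := by omega
            _ = a * 1 := (mul_one a).symm
            _ ≤ a * y := Nat.mul_le_mul_left a hy
        omega
    · rw [Nat.le_div_iff_mul_le (by omega)]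
      rw [mul_comm]
      exact hay
  choose! c hc hx using hch
  have hYm : P ^ k / m < m := by
    rw [Nat.div_lt_iff_lt_mul (by omega)]
    calc P ^ k ≤ P ^ (k + 1) := hPk
      _ < m * (m - 1) := hbig
      _ ≤ m * m := Nat.mul_le_mul_left m (Nat.sub_le m 1)
  have hcard : ((Finset.Icc 1 P) ×ˢ (Finset.Icc 1 (P ^ k / m))).card < (Finset.Ioo m (2 * m)).card := by
    rw [Finset.card_product, Nat.card_Icc, Nat.card_Icc, Nat.card_Ioo]
    have h1 : P * (P ^ k / m) * m ≤ P ^ (k + 1) := by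
      calc P * (P ^ k / m) * m = P * ((P ^ k / m) * m) := by ring
        _ ≤ P * P ^ k := Nat.mul_le_mul_left P (Nat.div_mul_le_self _ _)
        _ = P ^ (k + 1) := by ring
    have h2 : P * (P ^ k / m) * m < (m - 1) * m := by
      calc P * (P ^ k / m) * m ≤ P ^ (k + 1) := h1
        _ < m * (m - 1) := hbig
        _ = (m - 1) * m := mul_comm _ _
    have h3 : P * (P ^ k / m) < m - 1 := lt_of_mul_lt_mul_right h2 (Nat.zero_le m)
    have h4 : 2 * m - m - 1 = m - 1 := by omega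
    simp only [Nat.add_sub_cancel]
    rw [h4]
    exact h3
  obtain ⟨a, ha, a', ha', hne, heq⟩ := Finset.exists_ne_map_eq_of_card_lt_of_maps_to hcard hc
  -- contradiction
  have key : ∀ u v : ℕ, u ∈ Finset.Ioo m (2 * m) → v ∈ Finset.Ioo m (2 * m) → c u = c v → u ≤ v → u = v := by
    intro u v hu hv huv hle
    obtain ⟨xu, hxu⟩ := hx u hu
    obtain ⟨xv, hxv⟩ := hx v hv
    rw [← huv] at hxv
    have hcu := hc u hu
    rw [Finset.mem_product, Finset.mem_Icc, Finset.mem_Icc] at hcu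
    have hy1 := hcu.2.1
    have hy2 := hcu.2.2
    rw [Finset.mem_Ioo] at hu hv
    have hdiv : (m : ℤ) ∣ ((v : ℤ) - u) * (c u).2 := by
      refine ⟨(xu : ℤ) - xv, ?_⟩
      have e1 : ((c u).1 : ℤ) ^ k = m * xu + u * (c u).2 := by exact_mod_cast hxu
      have e2 : ((c u).1 : ℤ) ^ k = m * xv + v * (c u).2 := by exact_mod_cast hxv
      linear_combination e1 - e2
    have hdiv' : m ∣ (v - u) * (c u).2 := by
      have : ((m : ℤ)) ∣ (((v - u) * (c u).2 : ℕ) : ℤ) := by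
        push_cast [Nat.cast_sub hle]
        exact hdiv
      exact_mod_cast this
    rcases (Nat.Prime.dvd_mul hm).1 hdiv' with h | h
    · rcases Nat.eq_zero_or_pos (v - u) with h0 | h0
      · omega
      · have := Nat.le_of_dvd h0 h
        omega
    · have := Nat.le_of_dvd hy1 h
      omega
  rcases le_total a a' with h | h
  · exact hne (key a a' ha ha' heq h)
  · exact hne (key a' a ha' ha heq.symm h).symm

/-- For `P ≥ 1` there is a prime `m` with `P ^ (k + 1) < m (m - 1)` and `2 m ^ 2 ≤ 32 P ^ (k + 1)`. -/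
theorem exists_prime (P k : ℕ) (hP : 1 ≤ P) :
    ∃ m : ℕ, m.Prime ∧ P ^ (k + 1) < m * (m - 1) ∧ 2 * m ^ 2 ≤ 32 * P ^ (k + 1) := by
  set Q := P ^ (k + 1) with hQ
  have hQ1 : 1 ≤ Q := Nat.one_le_pow _ _ hP
  set s := Nat.sqrt Q with hs
  have hs1 : s * s ≤ Q := Nat.sqrt_le Q
  have hs2 : Q < (s + 1) * (s + 1) := Nat.lt_succ_sqrt Q
  have hs0 : 1 ≤ s := by
    by_contra h
    have : s = 0 := by omega
    rw [this] at hs2
    omega
  obtain ⟨m, hm, h1, h2⟩ := Nat.exists_prime_lt_and_le_two_mul (s + 1) (by omega)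
  refine ⟨m, hm, ?_, ?_⟩
  · have : s + 1 ≤ m - 1 := by omega
    calc Q < (s + 1) * (s + 1) := hs2
      _ ≤ m * (m - 1) := Nat.mul_le_mul (by omega) this
  · have h3 : m ≤ 4 * s := by omega
    calc 2 * m ^ 2 ≤ 2 * (4 * s) ^ 2 := by gcongr
      _ = 32 * (s * s) := by ring
      _ ≤ 32 * Q := by gcongr

/-- **Theorem.** For every real `M > 0` there is `k₀` such that for all `k ≥ k₀` every positive integer `N` with the
property which defines the threshold `g(k)` (every coprime pair `(a₁, a₂)` with `N < a₁ < a₂` is `k`-good) exceeds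
`M ^ k`. In particular `g(k) > M ^ k` for all large `k`. -/
theorem result : ∀ M : ℝ, 0 < M → ∃ k₀ : ℕ, ∀ k : ℕ, k₀ ≤ k → ∀ N ∈ Thresholds k, M ^ k < (N : ℝ) := by
  intro M hM
  obtain ⟨P, hPM⟩ := exists_nat_ge (max (M ^ 2) 1)
  have hP1 : (1 : ℝ) ≤ P := le_trans (le_max_right _ _) hPM
  have hPM2 : M ^ 2 ≤ (P : ℝ) := le_trans (le_max_left _ _) hPM
  have hP : 1 ≤ P := by exact_mod_cast hP1
  -- choose k₀
  have hlim : Filter.Tendsto (fun k : ℕ => ((P + 1 : ℝ) / P) ^ k) Filter.atTop Filter.atTop := by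
    apply tendsto_pow_atTop_atTop_of_one_lt
    rw [lt_div_iff₀ (by linarith)]
    linarith
  obtain ⟨k₁, hk₁⟩ := Filter.eventually_atTop.1 (hlim.eventually_ge_atTop (32 * (P : ℝ)))
  refine ⟨max k₁ 1, fun k hk N hN => ?_⟩
  have hkk1 : k₁ ≤ k := le_trans (le_max_left _ _) hk
  have hk1 : 1 ≤ k := le_trans (le_max_right _ _) hk
  by_contra hlt
  rw [not_lt] at hlt
  obtain ⟨m, hm, hmbig, hmsmall⟩ := exists_prime P k hP
  have hm2 := hm.two_le
  obtain ⟨a, ha1, ha2, hab⟩ := exists_second P k m hm hP hmbig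
  have hpow : 32 * P ^ (k + 1) ≤ (P + 1) ^ k := by
    have h := hk₁ k hkk1
    have hPpos : (0 : ℝ) < (P : ℝ) ^ k := by positivity
    rw [div_pow, le_div_iff₀ hPpos] at h
    have h' : (32 * (P : ℝ) ^ (k + 1)) ≤ ((P : ℝ) + 1) ^ k := by
      calc 32 * (P : ℝ) ^ (k + 1) = 32 * (P : ℝ) * (P : ℝ) ^ k := by ring
        _ ≤ _ := h
    exact_mod_cast h'
  -- `m` is large
  have hmM : M ^ k < (m : ℝ) := by
    have h1 : ((P : ℝ) ^ (k + 1)) < (m : ℝ) * ((m : ℝ) - 1) := by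
      have h2 : ((P ^ (k + 1) : ℕ) : ℝ) < ((m * (m - 1) : ℕ) : ℝ) := by exact_mod_cast hmbig
      rw [Nat.cast_mul, Nat.cast_sub (by omega)] at h2
      push_cast at h2
      exact h2
    have h2 : (M ^ k) ^ 2 < (m : ℝ) ^ 2 := by
      calc (M ^ k) ^ 2 = (M ^ 2) ^ k := by ring
        _ ≤ (P : ℝ) ^ k := by gcongr
        _ ≤ (P : ℝ) ^ (k + 1) := pow_le_pow_right₀ hP1 (Nat.le_succ k)
        _ < (m : ℝ) * ((m : ℝ) - 1) := h1
        _ ≤ (m : ℝ) ^ 2 := by nlinarith [(Nat.cast_nonneg m : (0 : ℝ) ≤ m)]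
    exact lt_of_pow_lt_pow_left₀ 2 (Nat.cast_nonneg m) h2
  have hNm : N < m := by
    have : (N : ℝ) < m := lt_of_le_of_lt hlt hmM
    exact_mod_cast this
  have hcop : Nat.Coprime m a := by
    rw [Nat.Prime.coprime_iff_not_dvd hm]
    rintro ⟨t, ht⟩
    rcases Nat.lt_or_ge t 2 with h | h
    · interval_cases t <;> omega
    · have : m * 2 ≤ m * t := Nat.mul_le_mul_left m h
      omega
  obtain ⟨p, hp, hle, x, y, hxy⟩ := hN.2 m a hNm ha1 hcop
  -- `p ≤ P`
  have hpP : p ≤ P := by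
    by_contra h
    have h1 : P + 1 ≤ p := by omega
    have h2 : (P + 1) ^ k ≤ p ^ k := Nat.pow_le_pow_left h1 k
    have h3 : ((P + 1) ^ k : ℤ) ≤ (p : ℤ) ^ k := by exact_mod_cast h2
    have h4 : (m : ℤ) * a < 2 * (m : ℤ) ^ 2 := by
      have : (a : ℤ) < 2 * m := by exact_mod_cast ha2
      nlinarith [(by exact_mod_cast hm.pos : (0 : ℤ) < m)]
    have h5 : 2 * (m : ℤ) ^ 2 ≤ 32 * (P : ℤ) ^ (k + 1) := by exact_mod_cast hmsmall
    have h6 : 32 * (P : ℤ) ^ (k + 1) ≤ ((P : ℤ) + 1) ^ k := by exact_mod_cast hpow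
    have h7 : (0 : ℤ) ≤ m := Int.natCast_nonneg m
    have h8 : (0 : ℤ) ≤ a := Int.natCast_nonneg a
    linarith
  rcases Nat.eq_zero_or_pos y with hy | hy
  · subst hy
    have hdvd : m ∣ p ^ k := ⟨x, by simpa using hxy⟩
    have hmp : m = p := (Nat.prime_dvd_prime_iff_eq hm hp).1 (hm.dvd_of_dvd_pow hdvd)
    have hPP : P ^ 2 ≤ P ^ (k + 1) := Nat.pow_le_pow_right hP (by omega)
    have h1 : m * (m - 1) ≤ P ^ 2 := by
      calc m * (m - 1) ≤ m * m := Nat.mul_le_mul_left m (Nat.sub_le m 1)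
        _ ≤ P * P := Nat.mul_le_mul (hmp ▸ hpP) (hmp ▸ hpP)
        _ = P ^ 2 := (sq P).symm
    omega
  · exact hab p y x hpP hy hxy

end Pool.Agent.Results.MP_0e842d_nt.ThresholdGrowth
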